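import Mathlib

/-!
# Minimax joint spectral radii: definitions
-/

open Filter Topology
open scoped ENNReal

namespace Pool.Agent.Lib.MP_36f7ac_an

variable {N : ℕ}

/-- The product `A_n B_n ⋯ A_1 B_1` (the index `i : Fin n` stands for `i + 1`). -/
def prodAB {n : ℕ} (A B : Fin n → Matrix (Fin N) (Fin N) ℝ) : Matrix (Fin N) (Fin N) ℝ :=
  (List.ofFn (fun i => A i * B i)).reverse.prod

/-- `max` over `(A_1,…,A_n)` in `𝒜` of the `min` over `(B_1,…,B_n)` in `ℬ` of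
`φ(A_n B_n ⋯ A_1 B_1)`. -/
noncomputable def maxMin (φ : Matrix (Fin N) (Fin N) ℝ → ℝ≥0∞)
    (𝒜 ℬ : Finset (Matrix (Fin N) (Fin N) ℝ)) (n : ℕ) : ℝ≥0∞ :=
  ⨆ A : Fin n → 𝒜, ⨅ B : Fin n → ℬ, φ (prodAB (fun i => (A i).1) (fun i => (B i).1))

/-- `min` over `(B_1,…,B_n)` in `ℬ` of the `max` over `(A_1,…,A_n)` in `𝒜` of
`φ(A_n B_n ⋯ A_1 B_1)`. -/
noncomputable def minMax (φ : Matrix (Fin N) (Fin N) ℝ → ℝ≥0∞)
    (𝒜 ℬ : Finset (Matrix (Fin N) (Fin N) ℝ)) (n : ℕ) : ℝ≥0∞ :=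
  ⨅ B : Fin n → ℬ, ⨆ A : Fin n → 𝒜, φ (prodAB (fun i => (A i).1) (fun i => (B i).1))

/-- `nrm` is a norm on the real `N × N` matrices. -/
structure IsMatrixNorm (nrm : Matrix (Fin N) (Fin N) ℝ → ℝ) : Prop where
  nonneg : ∀ X, 0 ≤ nrm X
  eq_zero_iff : ∀ X, nrm X = 0 ↔ X = 0
  smul : ∀ (c : ℝ) X, nrm (c • X) = |c| * nrm X
  add_le : ∀ X Y, nrm (X + Y) ≤ nrm X + nrm Y

/-- A norm as a function with values in `[0,∞]`. -/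
noncomputable def size (nrm : Matrix (Fin N) (Fin N) ℝ → ℝ) (X : Matrix (Fin N) (Fin N) ℝ) :
    ℝ≥0∞ := ENNReal.ofReal (nrm X)

/-- The spectral radius of a real matrix (over its complex eigenvalues). -/
noncomputable def rho (X : Matrix (Fin N) (Fin N) ℝ) : ℝ≥0∞ :=
  spectralRadius ℂ (X.map (algebraMap ℝ ℂ))

/-- `μ(𝒜,ℬ)`: the limit of `μ_n^{1/n}` (written as a lower limit). -/
noncomputable def mu (nrm : Matrix (Fin N) (Fin N) ℝ → ℝ)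
    (𝒜 ℬ : Finset (Matrix (Fin N) (Fin N) ℝ)) : ℝ≥0∞ :=
  liminf (fun n : ℕ => (maxMin (size nrm) 𝒜 ℬ n) ^ (1 / (n : ℝ))) atTop

/-- `η(𝒜,ℬ)`: the limit of `η_n^{1/n}` (written as a lower limit). -/
noncomputable def eta (nrm : Matrix (Fin N) (Fin N) ℝ → ℝ)
    (𝒜 ℬ : Finset (Matrix (Fin N) (Fin N) ℝ)) : ℝ≥0∞ :=
  liminf (fun n : ℕ => (minMax (size nrm) 𝒜 ℬ n) ^ (1 / (n : ℝ))) atTop

/-- `μ̂ = limsup μ̄_n^{1/n}`. -/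
noncomputable def muHat (𝒜 ℬ : Finset (Matrix (Fin N) (Fin N) ℝ)) : ℝ≥0∞ :=
  limsup (fun n : ℕ => (maxMin rho 𝒜 ℬ n) ^ (1 / (n : ℝ))) atTop

/-- `μ̌ = liminf μ̄_n^{1/n}`. -/
noncomputable def muCheck (𝒜 ℬ : Finset (Matrix (Fin N) (Fin N) ℝ)) : ℝ≥0∞ :=
  liminf (fun n : ℕ => (maxMin rho 𝒜 ℬ n) ^ (1 / (n : ℝ))) atTop

/-- `η̂ = limsup η̄_n^{1/n}`. -/
noncomputable def etaHat (𝒜 ℬ : Finset (Matrix (Fin N) (Fin N) ℝ)) : ℝ≥0∞ :=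
  limsup (fun n : ℕ => (minMax rho 𝒜 ℬ n) ^ (1 / (n : ℝ))) atTop

/-- `η̌ = liminf η̄_n^{1/n}`. -/
noncomputable def etaCheck (𝒜 ℬ : Finset (Matrix (Fin N) (Fin N) ℝ)) : ℝ≥0∞ :=
  liminf (fun n : ℕ => (minMax rho 𝒜 ℬ n) ^ (1 / (n : ℝ))) atTop

end Pool.Agent.Lib.MP_36f7ac_an
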