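import Mathlib

/-!
# Square-free words over four letters exist in every length
-/

namespace Pool.Agent.Lib.MP_36f7ac_an

/-- A word without a nonempty square factor. -/
def SqFree (w : List (Fin 4)) : Prop := ∀ x u v : List (Fin 4), w = x ++ (u ++ (u ++ v)) → u = []

lemma SqFree.suffix {w x : List (Fin 4)} (h : SqFree (x ++ w)) : SqFree w := by
  intro y u v hw
  apply h (x ++ y) u v
  rw [hw, List.append_assoc]

lemma SqFree.leftPart {w x : List (Fin 4)} (h : SqFree (w ++ x)) : SqFree w := by
  intro y u v hw
  apply h y u (v ++ x)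
  rw [hw]
  simp [List.append_assoc]

open Classical in
/-- the square-free words of length `n` -/
noncomputable def S : ℕ → Finset (List (Fin 4))
  | 0 => {[]}
  | n + 1 => (((Finset.univ : Finset (Fin 4)) ×ˢ S n).image (fun p => p.1 :: p.2)).filter SqFree

lemma sqFree_nil : SqFree [] := by
  intro x u v h
  have := congrArg List.length h
  simp only [List.length_nil, List.length_append] at this
  exact List.eq_nil_of_length_eq_zero (by omega)

lemma mem_S {n : ℕ} {w : List (Fin 4)} : w ∈ S n ↔ w.length = n ∧ SqFree w := by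
  classical
  induction n generalizing w with
  | zero =>
    simp only [S, Finset.mem_singleton]
    constructor
    · rintro rfl
      exact ⟨rfl, sqFree_nil⟩
    · rintro ⟨h, _⟩
      exact List.eq_nil_of_length_eq_zero h
  | succ n ih =>
    rw [S, Finset.mem_filter, Finset.mem_image]
    constructor
    · rintro ⟨⟨⟨c, w'⟩, hw', rfl⟩, hsq⟩
      rw [Finset.mem_product] at hw'
      exact ⟨by simp [(ih.mp hw'.2).1], hsq⟩
    · rintro ⟨hl, hsq⟩
      refine ⟨?_, hsq⟩
      cases w with
      | nil => simp at hl
      | cons c w' =>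
        refine ⟨(c, w'), ?_, rfl⟩
        rw [Finset.mem_product]
        refine ⟨Finset.mem_univ _, ih.mpr ⟨by simpa using hl, ?_⟩⟩
        exact SqFree.suffix (x := [c]) hsq

lemma card_step (n : ℕ) : 4 * (S n).card ≤
    (S (n + 1)).card + ∑ j ∈ Finset.Icc 1 n, (S j).card := by
  classical
  set I := ((Finset.univ : Finset (Fin 4)) ×ˢ S n).image (fun p => p.1 :: p.2) with hI
  have hcard : I.card = 4 * (S n).card := by
    rw [hI, Finset.card_image_of_injective, Finset.card_product]
    · simp
    · rintro ⟨a, b⟩ ⟨c, d⟩ h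
      simp only [List.cons.injEq] at h
      exact Prod.ext h.1 h.2
  have hsplit := Finset.card_filter_add_card_filter_not (s := I) (p := SqFree)
  have hS : (I.filter SqFree) = S (n + 1) := by rw [S]
  set bad : ℕ → Finset (List (Fin 4)) := fun i =>
    I.filter (fun W => ∃ u v : List (Fin 4), u.length = i ∧ W = u ++ (u ++ v)) with hbad
  have hsub : I.filter (fun W => ¬ SqFree W) ⊆ (Finset.Icc 1 n).biUnion bad := by
    intro W hW
    rw [Finset.mem_filter] at hW
    obtain ⟨hWI, hWn⟩ := hW
    have hWI' := hWI
    rw [hI, Finset.mem_image] at hWI'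
    obtain ⟨⟨c, w⟩, hcw, rfl⟩ := hWI'
    rw [Finset.mem_product] at hcw
    obtain ⟨hlen, hsq⟩ := mem_S.mp hcw.2
    unfold SqFree at hWn
    push Not at hWn
    obtain ⟨x, u, v, hxuv, hu⟩ := hWn
    -- x must be empty
    have hx : x = [] := by
      cases x with
      | nil => rfl
      | cons d x' =>
        exfalso
        simp only [List.cons_append, List.cons.injEq] at hxuv
        exact hu (hsq x' u v hxuv.2)
    subst hx
    simp only [List.nil_append] at hxuv
    have hul : 0 < u.length := List.length_pos_iff.mpr hu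
    have hlen2 := congrArg List.length hxuv
    simp only [List.length_cons, List.length_append] at hlen2
    have hlen' : w.length = n := hlen
    rw [Finset.mem_biUnion]
    refine ⟨u.length, Finset.mem_Icc.mpr ⟨hul, by omega⟩, ?_⟩
    rw [hbad, Finset.mem_filter]
    exact ⟨hWI, u, v, rfl, hxuv⟩
  have hbadcard : ∀ i ∈ Finset.Icc 1 n, (bad i).card ≤ (S (n + 1 - i)).card := by
    intro i hi
    rw [Finset.mem_Icc] at hi
    apply Finset.card_le_card_of_injOn (fun W => W.drop i)
    · intro W hW
      rw [Finset.mem_coe, hbad, Finset.mem_filter] at hW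
      obtain ⟨hWI, u, v, hui, hWuv⟩ := hW
      rw [hI, Finset.mem_image] at hWI
      obtain ⟨⟨c, w⟩, hcw, hcw2⟩ := hWI
      rw [Finset.mem_product] at hcw
      obtain ⟨hlen, hsq⟩ := mem_S.mp hcw.2
      simp only at hcw2
      rw [Finset.mem_coe, mem_S]
      constructor
      · have hlen' : w.length = n := hlen
        rw [List.length_drop, ← hcw2, List.length_cons, hlen']
      · obtain ⟨j, rfl⟩ : ∃ j, i = j + 1 := ⟨i - 1, by omega⟩
        change SqFree (W.drop (j + 1))
        rw [← hcw2, List.drop_succ_cons]
        apply SqFree.suffix (x := w.take j)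
        rw [List.take_append_drop]
        exact hsq
    · intro W hW W' hW' hWW'
      have key : ∀ W ∈ bad i, W = (W.drop i).take i ++ W.drop i := by
        intro W hW
        rw [hbad, Finset.mem_filter] at hW
        obtain ⟨_, u, v, hui, hWuv⟩ := hW
        subst hui
        rw [hWuv]
        simp
      rw [key W hW, key W' hW']
      simp only at hWW'
      rw [hWW']
  have h1 : (I.filter (fun W => ¬ SqFree W)).card ≤ ∑ i ∈ Finset.Icc 1 n, (S (n + 1 - i)).card :=
    (Finset.card_le_card hsub).trans (Finset.card_biUnion_le.trans (Finset.sum_le_sum hbadcard))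
  have h2 : ∑ i ∈ Finset.Icc 1 n, (S (n + 1 - i)).card = ∑ j ∈ Finset.Icc 1 n, (S j).card := by
    apply Finset.sum_bij' (fun i _ => n + 1 - i) (fun i _ => n + 1 - i)
    · intro i hi
      rw [Finset.mem_Icc] at *
      omega
    · intro i hi
      rw [Finset.mem_Icc] at *
      omega
    · intro i hi
      rw [Finset.mem_Icc] at hi
      omega
    · intro i hi
      rw [Finset.mem_Icc] at hi
      omega
    · intro i _
      rfl
  rw [hS, hcard] at hsplit
  omega

lemma card_growth (n : ℕ) : 2 * (S n).card ≤ (S (n + 1)).card ∧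
    ∑ j ∈ Finset.Icc 1 n, (S j).card ≤ 2 * (S n).card := by
  induction n with
  | zero =>
    have := card_step 0
    simp only [Nat.zero_add] at this ⊢
    have h : ∑ j ∈ Finset.Icc 1 0, (S j).card = 0 := by simp
    omega
  | succ n ih =>
    have h1 := card_step (n + 1)
    have h2 : ∑ j ∈ Finset.Icc 1 (n + 1), (S j).card =
        ∑ j ∈ Finset.Icc 1 n, (S j).card + (S (n + 1)).card :=
      Finset.sum_Icc_succ_top (by omega) _
    constructor
    · omega
    · omega

theorem exists_sqFree (n : ℕ) : ∃ w : List (Fin 4), w.length = n ∧ SqFree w := by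
  have hpos : ∀ n, 0 < (S n).card := by
    intro n
    induction n with
    | zero => simp [S]
    | succ n ih =>
      have := (card_growth n).1
      omega
  obtain ⟨w, hw⟩ := Finset.card_pos.mp (hpos n)
  exact ⟨w, mem_S.mp hw⟩

end Pool.Agent.Lib.MP_36f7ac_an
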