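import Mathlib
import Pool.Agent.Lib.MP_36f7ac_an.Defs
import Pool.Agent.Lib.MP_36f7ac_an.SquareFree

/-!
# The pair `(𝒜, ℬ)` of sets of `6 × 6` matrices
-/

open Filter Topology
open scoped ENNReal

namespace Pool.Agent.Lib.MP_36f7ac_an

/-- the digit of a letter, in `{1,2,3,4}` -/
def dgt (a : Fin 4) : ℝ := (a.val : ℝ) + 1

lemma dgt_ge (a : Fin 4) : 1 ≤ dgt a := by
  unfold dgt
  have : (0 : ℝ) ≤ (a.val : ℝ) := Nat.cast_nonneg _
  linarith

lemma dgt_le (a : Fin 4) : dgt a ≤ 4 := by
  unfold dgt
  have : (a.val : ℝ) ≤ 3 := by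
    have := a.isLt
    exact_mod_cast (by omega : a.val ≤ 3)
  linarith

lemma dgt_sub {a b : Fin 4} (h : a ≠ b) : 1 ≤ |dgt a - dgt b| := by
  unfold dgt
  have h2 : (a.val : ℤ) - (b.val : ℤ) ≠ 0 := by
    intro h3
    apply h
    apply Fin.ext
    omega
  have h3 : 1 ≤ |(a.val : ℤ) - (b.val : ℤ)| := Int.one_le_abs h2
  have h4 : (((|(a.val : ℤ) - (b.val : ℤ)| : ℤ)) : ℝ) = |((a.val : ℝ) + 1) - ((b.val : ℝ) + 1)| := by
    push_cast
    congr 1
    ring
  rw [← h4]
  exact_mod_cast h3

/-- The number `∑ a_k 10^{-k}` of a word `a_1 a_2 …`. -/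
noncomputable def s : List (Fin 4) → ℝ
  | [] => 0
  | a :: w => (dgt a + s w) / 10

lemma s_nonneg (w : List (Fin 4)) : 0 ≤ s w := by
  induction w with
  | nil => exact le_rfl
  | cons a w ih =>
    rw [s]
    have := dgt_ge a
    positivity

lemma s_le (w : List (Fin 4)) : s w ≤ 4 / 9 := by
  induction w with
  | nil => rw [s]; norm_num
  | cons a w ih =>
    rw [s]
    have := dgt_le a
    linarith

lemma s_append (w : List (Fin 4)) (a : Fin 4) :
    s (w ++ [a]) = s w + dgt a * (1 / 10) ^ (w.length + 1) := by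
  induction w with
  | nil => simp [s]; ring
  | cons b w ih =>
    rw [List.cons_append, s, ih, s, List.length_cons]
    ring

/-- different words have different numbers, quantitatively -/
lemma s_sub {u w : List (Fin 4)} (h : u ≠ w) (hw : w ≠ []) :
    (1 / 10 : ℝ) ^ (w.length + 2) ≤ |s u - s w| := by
  induction w generalizing u with
  | nil => exact absurd rfl hw
  | cons b w ih =>
    cases u with
    | nil =>
      rw [s, s]
      have h1 := dgt_ge b
      have h2 := s_nonneg w
      rw [abs_sub_comm, sub_zero, abs_of_nonneg (by positivity)]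
      have h3 : (1 / 10 : ℝ) ^ ((b :: w).length + 2) ≤ (1 / 10) ^ 1 := by
        apply pow_le_pow_of_le_one (by norm_num) (by norm_num)
        omega
      linarith
    | cons a u =>
      rw [s, s]
      by_cases hab : a = b
      · subst hab
        have hne : u ≠ w := fun e => h (by rw [e])
        have e1 : (dgt a + s u) / 10 - (dgt a + s w) / 10 = (s u - s w) / 10 := by ring
        rw [e1, abs_div, abs_of_pos (by norm_num : (0 : ℝ) < 10), List.length_cons]
        by_cases hw0 : w = []
        · subst hw0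
          have hu : u ≠ [] := hne
          cases u with
          | nil => exact absurd rfl hu
          | cons c u' =>
            rw [s, s]
            have h1 := dgt_ge c
            have h2 := s_nonneg u'
            rw [sub_zero, abs_of_nonneg (by positivity)]
            simp only [List.length_nil]
            norm_num
            linarith
        · have := ih hne hw0
          calc (1 / 10 : ℝ) ^ (w.length + 1 + 2) = (1 / 10 : ℝ) ^ (w.length + 2) / 10 := by
                rw [show w.length + 1 + 2 = (w.length + 2) + 1 by ring, pow_succ]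
                ring
            _ ≤ |s u - s w| / 10 := by gcongr
      · have h1 := dgt_sub hab
        have h2 : |s u - s w| ≤ 4 / 9 := by
          rw [abs_le]
          constructor
          · linarith [s_nonneg u, s_le w]
          · linarith [s_nonneg w, s_le u]
        have e1 : (dgt a + s u) / 10 - (dgt b + s w) / 10 =
            ((dgt a - dgt b) + (s u - s w)) / 10 := by ring
        rw [e1, abs_div, abs_of_pos (by norm_num : (0 : ℝ) < 10)]
        have h3 : |dgt a - dgt b| - |s u - s w| ≤ |(dgt a - dgt b) + (s u - s w)| := by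
          have := abs_sub_abs_le_abs_sub (dgt a - dgt b) (-(s u - s w))
          rw [abs_neg, sub_neg_eq_add] at this
          exact this
        have h4 : (1 / 10 : ℝ) ^ ((b :: w).length + 2) ≤ (1 / 10) ^ 2 := by
          apply pow_le_pow_of_le_one (by norm_num) (by norm_num)
          omega
        norm_num at h4 ⊢
        linarith

/-- The pure tensor `(p₀,p₁) ⊗ (q₀,q₁,q₂)`. -/
def pt (p₀ p₁ q₀ q₁ q₂ : ℝ) : Fin 6 → ℝ :=
  ![p₀ * q₀, p₀ * q₁, p₀ * q₂, p₁ * q₀, p₁ * q₁, p₁ * q₂]

/-- The letter matrices: `[[1,-a],[0,1/10]] ⊗ [[1,a,0],[0,1/10,0],[0,0,1]]`. -/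
noncomputable def Am (a : Fin 4) : Matrix (Fin 6) (Fin 6) ℝ :=
  !![1, dgt a, 0, -dgt a, -dgt a * dgt a, 0;
     0, 1 / 10, 0, 0, -dgt a * (1 / 10), 0;
     0, 0, 1, 0, 0, -dgt a;
     0, 0, 0, 1 / 10, 1 / 10 * dgt a, 0;
     0, 0, 0, 0, 1 / 10 * (1 / 10), 0;
     0, 0, 0, 0, 0, 1 / 10]

/-- The restart matrix. -/
noncomputable def Rm : Matrix (Fin 6) (Fin 6) ℝ :=
  !![0, 0, 0, 0, 0, 0;
     1 / 10, 0, 0, 0, 0, 0;
     1, 0, 0, 0, 0, 0;
     0, 0, 0, 0, 0, 0;
     0, 0, 1 / 100, 0, 0, 0;
     0, 0, 1 / 10, 0, 0, 0]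

lemma Am_pt (a : Fin 4) (p₀ p₁ q₀ q₁ q₂ : ℝ) : (Am a).mulVec (pt p₀ p₁ q₀ q₁ q₂) =
    pt (p₀ - dgt a * p₁) (p₁ / 10) (q₀ + dgt a * q₁) (q₁ / 10) q₂ := by
  funext i
  fin_cases i <;> simp [Am, pt, Matrix.mulVec, dotProduct, Fin.sum_univ_succ] <;> ring

lemma Rm_apply (z : Fin 6 → ℝ) : Rm.mulVec z = pt (z 0) (z 2 / 10) 0 (1 / 10) 1 := by
  funext i
  fin_cases i <;> simp [Rm, pt, Matrix.mulVec, dotProduct, Fin.sum_univ_succ] <;> ring

/-- the set `𝒜` -/
noncomputable def setA : Finset (Matrix (Fin 6) (Fin 6) ℝ) := by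
  classical exact Finset.univ.image Am

/-- the set `ℬ` -/
noncomputable def setB : Finset (Matrix (Fin 6) (Fin 6) ℝ) := by
  classical exact {1, Rm}

lemma setA_nonempty : setA.Nonempty := by
  classical
  unfold setA
  exact ⟨Am 0, Finset.mem_image_of_mem _ (Finset.mem_univ _)⟩

lemma setB_nonempty : setB.Nonempty := by
  classical
  unfold setB
  exact ⟨1, Finset.mem_insert_self _ _⟩

lemma mem_setA {X : Matrix (Fin 6) (Fin 6) ℝ} : X ∈ setA ↔ ∃ a, Am a = X := by
  classical
  unfold setA
  simp

lemma mem_setB {X : Matrix (Fin 6) (Fin 6) ℝ} : X ∈ setB ↔ X = 1 ∨ X = Rm := by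
  classical
  unfold setB
  simp

/-- product of a reversed list acting on a vector -/
lemma reverse_prod_mulVec (L : List (Matrix (Fin 6) (Fin 6) ℝ)) (z : Fin 6 → ℝ) :
    (L.reverse.prod).mulVec z = L.foldl (fun z M => M.mulVec z) z := by
  induction L generalizing z with
  | nil => simp
  | cons M L ih =>
    rw [List.reverse_cons, List.prod_append, List.prod_singleton, ← Matrix.mulVec_mulVec, ih,
      List.foldl_cons]

/-- one step -/
noncomputable def step (z : Fin 6 → ℝ) (x : Fin 4 × Bool) : Fin 6 → ℝ :=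
  (Am x.1).mulVec (if x.2 then Rm.mulVec z else z)

/-- the invariant describing the state after reading the word `v` (letters only) -/
def Inv (v : List (Fin 4)) (z : Fin 6 → ℝ) : Prop :=
  ∃ (c sp : ℝ) (w : List (Fin 4)) (x : List (Fin 4)),
    v = x ++ w ∧ (w = [] → v = []) ∧
    (sp = 1 ∨ ∃ w' y, x = y ++ w' ∧ sp = s w') ∧
    (1 / 1000 : ℝ) ^ x.length ≤ |c| ∧
    (w = [] → sp = 1) ∧
    z = pt (c * (sp - s w)) (c * (1 / 10) ^ (w.length + 1)) (s w) ((1 / 10) ^ (w.length + 1)) 1

lemma inv_start : Inv [] (pt 1 (1 / 10) 0 (1 / 10) 1) := by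
  refine ⟨1, 1, [], [], rfl, fun _ => rfl, Or.inl rfl, ?_, fun _ => rfl, ?_⟩
  · simp
  · simp [s]

lemma inv_step {v : List (Fin 4)} {z : Fin 6 → ℝ} (x : Fin 4 × Bool) (h : Inv v z)
    (hsq : SqFree (v ++ [x.1])) : Inv (v ++ [x.1]) (step z x) := by
  obtain ⟨c, sp, w, u, hv, hw0, hsp, hc, hsp1, hz⟩ := h
  obtain ⟨a, b⟩ := x
  simp only at hsq ⊢
  cases b with
  | false =>
    -- no restart
    refine ⟨c, sp, w ++ [a], u, ?_, ?_, hsp, hc, ?_, ?_⟩
    · rw [hv, List.append_assoc]
    · intro h
      simp at h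
    · intro h
      simp at h
    · simp only [step, Bool.false_eq_true, if_false]
      rw [hz, Am_pt, s_append, List.length_append, List.length_singleton]
      congr 1 <;> ring
  | true =>
    -- restart
    have hz0 : z 0 = c * (sp - s w) * s w := by
      rw [hz]; simp [pt]
    have hz2 : z 2 = c * (sp - s w) := by
      rw [hz]; simp [pt]
    refine ⟨c * (sp - s w), s w, [a], v, rfl, ?_, ?_, ?_, ?_, ?_⟩
    · intro h
      simp at h
    · right
      exact ⟨w, u, hv, rfl⟩
    · rw [abs_mul]
      by_cases hw : w = []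
      · have hv0 := hw0 hw
        have hsp' := hsp1 hw
        have hu : u = [] := by
          rw [hv0] at hv
          exact (List.append_eq_nil_iff.mp hv.symm).1
        rw [hu] at hc
        rw [hv0, hsp', hw]
        simpa [s] using hc
      · have hd : (1 / 10 : ℝ) ^ (w.length + 2) ≤ |sp - s w| := by
          rcases hsp with hsp | ⟨w', y, hy, hsp⟩
          · rw [hsp]
            have h1 := s_le w
            rw [abs_of_nonneg (by linarith)]
            have h4 : (1 / 10 : ℝ) ^ (w.length + 2) ≤ (1 / 10) ^ 2 := by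
              apply pow_le_pow_of_le_one (by norm_num) (by norm_num)
              omega
            norm_num at h4 ⊢
            linarith
          · rw [hsp]
            apply s_sub _ hw
            intro hww
            apply hw
            have hsqv : SqFree v := hsq.leftPart
            apply hsqv y w []
            rw [hv, hy, hww]
            simp
        have hwl : 1 ≤ w.length := List.length_pos_iff.mpr hw
        have h5 : (1 / 1000 : ℝ) ^ w.length ≤ (1 / 10) ^ (w.length + 2) := by
          have : (1 / 1000 : ℝ) ^ w.length = (1 / 10) ^ (3 * w.length) := by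
            rw [pow_mul]; norm_num
          rw [this]
          apply pow_le_pow_of_le_one (by norm_num) (by norm_num)
          omega
        rw [hv, List.length_append, pow_add]
        have h6 : (0 : ℝ) ≤ (1 / 1000) ^ u.length := by positivity
        have h7 : (0 : ℝ) ≤ (1 / 1000) ^ w.length := by positivity
        calc (1 / 1000 : ℝ) ^ u.length * (1 / 1000) ^ w.length
            ≤ |c| * (1 / 1000) ^ w.length := by gcongr
          _ ≤ |c| * |sp - s w| := by
              gcongr
              exact h5.trans hd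
    · intro h
      simp at h
    · simp only [step, if_true]
      rw [Rm_apply, Am_pt, hz0, hz2]
      simp only [s, List.length_singleton, add_zero]
      congr 1 <;> ring

lemma inv_foldl (L : List (Fin 4 × Bool)) (v : List (Fin 4)) (z : Fin 6 → ℝ) (h : Inv v z)
    (hsq : SqFree (v ++ L.map Prod.fst)) : Inv (v ++ L.map Prod.fst) (L.foldl step z) := by
  induction L generalizing v z with
  | nil => simpa using h
  | cons x L ih =>
    rw [List.map_cons, ← List.singleton_append, ← List.append_assoc] at hsq ⊢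
    rw [List.foldl_cons]
    apply ih
    · apply inv_step x h
      exact hsq.leftPart
    · exact hsq

lemma inv_bound {v : List (Fin 4)} {z : Fin 6 → ℝ} (h : Inv v z) :
    (1 / 1000 : ℝ) ^ (v.length + 1) ≤ |z 5| := by
  obtain ⟨c, sp, w, x, hv, hw0, hsp, hc, hsp1, hz⟩ := h
  have hz5 : z 5 = c * (1 / 10) ^ (w.length + 1) := by
    rw [hz]; simp [pt]
  rw [hz5, abs_mul, abs_of_pos (by positivity : (0 : ℝ) < (1 / 10) ^ (w.length + 1))]
  have h1 : (1 / 1000 : ℝ) ^ (w.length + 1) ≤ (1 / 10) ^ (w.length + 1) := by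
    apply pow_le_pow_left₀ (by norm_num) (by norm_num)
  have h2 : (1 / 1000 : ℝ) ^ (v.length + 1) =
      (1 / 1000) ^ x.length * (1 / 1000) ^ (w.length + 1) := by
    rw [← pow_add, hv, List.length_append]
    ring
  rw [h2]
  gcongr

/-- For a square-free word no choice in `ℬ` makes the product small. -/
lemma entry_bound {n : ℕ} (w : List (Fin 4)) (hw : w.length = n) (hsq : SqFree w)
    (B : Fin n → setB) :
    ∃ j, (1 / 1000 : ℝ) ^ (n + 1) / 6 ≤
      |prodAB (fun i => Am (w.get (i.cast hw.symm))) (fun i => (B i).1) 5 j| := by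
  classical
  set b : Fin n → Bool := fun i => decide ((B i).1 = Rm) with hb
  set L : List (Fin 4 × Bool) := List.ofFn (fun i : Fin n => (w.get (i.cast hw.symm), b i)) with hL
  set P := prodAB (fun i => Am (w.get (i.cast hw.symm))) (fun i => (B i).1) with hP
  set z₀ : Fin 6 → ℝ := pt 1 (1 / 10) 0 (1 / 10) 1 with hz₀
  have hmap : L.map Prod.fst = w := by
    rw [hL, List.map_ofFn]
    apply List.ext_get
    · simp [hw]
    · intro i h1 h2
      simp
  have hPz : P.mulVec z₀ = L.foldl step z₀ := by
    rw [hP, prodAB, reverse_prod_mulVec]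
    have hl : List.ofFn (fun i : Fin n => Am (w.get (i.cast hw.symm)) * (B i).1) =
        L.map (fun x => Am x.1 * (if x.2 then Rm else 1)) := by
      rw [hL, List.map_ofFn]
      congr 1
      funext i
      simp only [Function.comp, hb, decide_eq_true_eq]
      congr 1
      by_cases h : (B i).1 = Rm
      · rw [if_pos h, h]
      · rw [if_neg h]
        rcases mem_setB.mp (B i).2 with h1 | h1
        · exact h1
        · exact absurd h1 h
    rw [hl, List.foldl_map]
    congr 1
    funext z x
    unfold step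
    split_ifs
    · rw [← Matrix.mulVec_mulVec]
    · rw [mul_one]
  have hinv : Inv ([] ++ L.map Prod.fst) (L.foldl step z₀) := by
    apply inv_foldl L [] z₀ inv_start
    rw [hmap]
    simpa using hsq
  rw [List.nil_append, hmap, ← hPz] at hinv
  have hbd := inv_bound hinv
  rw [hw] at hbd
  by_contra hcon
  push Not at hcon
  have hz : ∀ j, |z₀ j| ≤ 1 := by
    intro j
    fin_cases j <;> simp [hz₀, pt] <;> norm_num [abs_of_pos]
  have h1 : |P.mulVec z₀ 5| ≤ ∑ j, |P 5 j| := by
    unfold Matrix.mulVec dotProduct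
    refine (Finset.abs_sum_le_sum_abs _ _).trans ?_
    apply Finset.sum_le_sum
    intro j _
    rw [abs_mul]
    exact mul_le_of_le_one_right (abs_nonneg _) (hz j)
  have h2 : ∑ j : Fin 6, |P 5 j| < ∑ _j : Fin 6, (1 / 1000 : ℝ) ^ (n + 1) / 6 :=
    Finset.sum_lt_sum_of_nonempty Finset.univ_nonempty (fun j _ => hcon j)
  rw [Finset.sum_const, Finset.card_univ, Fintype.card_fin, nsmul_eq_mul] at h2
  push_cast at h2
  linarith

end Pool.Agent.Lib.MP_36f7ac_an
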