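import Mathlib
import Pool.Agent.Lib.MP_36f7ac_an.Defs
import Pool.Agent.Lib.MP_36f7ac_an.Construction

/-!
# The spectral radii vanish, the norms do not
-/

open Filter Topology
open scoped ENNReal

namespace Pool.Agent.Lib.MP_36f7ac_an

lemma prod_mulVec {n : ℕ} (l : Fin n → Fin 4) (b : Fin n → Bool) (z : Fin 6 → ℝ) :
    (prodAB (fun i => Am (l i)) (fun i => if b i then Rm else 1)).mulVec z =
      (List.ofFn (fun i => (l i, b i))).foldl step z := by
  rw [prodAB, reverse_prod_mulVec]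
  have hl : List.ofFn (fun i : Fin n => Am (l i) * (if b i then Rm else 1)) =
      (List.ofFn (fun i => (l i, b i))).map (fun x => Am x.1 * (if x.2 then Rm else 1)) := by
    rw [List.map_ofFn]
    rfl
  rw [hl, List.foldl_map]
  congr 1
  funext z x
  unfold step
  split_ifs
  · rw [← Matrix.mulVec_mulVec]
  · rw [mul_one]

lemma foldl_false (w : List (Fin 4)) (u : List (Fin 4)) (v₁ v₂ : ℝ) :
    (w.map (fun a => (a, false))).foldl step
      (pt (v₁ - s u * v₂) (v₂ * (1 / 10) ^ (u.length + 1)) (s u) ((1 / 10) ^ (u.length + 1)) 1) =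
      pt (v₁ - s (u ++ w) * v₂) (v₂ * (1 / 10) ^ ((u ++ w).length + 1)) (s (u ++ w))
        ((1 / 10) ^ ((u ++ w).length + 1)) 1 := by
  induction w generalizing u with
  | nil => simp
  | cons a w ih =>
    rw [List.map_cons, List.foldl_cons]
    have h1 : step (pt (v₁ - s u * v₂) (v₂ * (1 / 10) ^ (u.length + 1)) (s u)
        ((1 / 10) ^ (u.length + 1)) 1) (a, false) =
        pt (v₁ - s (u ++ [a]) * v₂) (v₂ * (1 / 10) ^ ((u ++ [a]).length + 1)) (s (u ++ [a]))
        ((1 / 10) ^ ((u ++ [a]).length + 1)) 1 := by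
      simp only [step, Bool.false_eq_true, if_false]
      rw [Am_pt, s_append, List.length_append, List.length_singleton]
      congr 1 <;> ring
    rw [h1, ih (u ++ [a])]
    simp [List.append_assoc]

/-- the single block response -/
def bOne (n : ℕ) : Fin n → Bool := fun i => decide (i.val = 0)

lemma block {m : ℕ} (l : Fin (m + 1) → Fin 4) (z : Fin 6 → ℝ) :
    (prodAB (fun i => Am (l i)) (fun i => if bOne (m + 1) i then Rm else 1)).mulVec z =
      pt (z 0 - s (List.ofFn l) * z 2) (z 2 * (1 / 10) ^ (m + 2)) (s (List.ofFn l))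
        ((1 / 10) ^ (m + 2)) 1 := by
  rw [prod_mulVec, List.ofFn_succ, List.foldl_cons]
  have h0 : bOne (m + 1) 0 = true := by simp [bOne]
  have h1 : List.ofFn (fun i : Fin m => (l i.succ, bOne (m + 1) i.succ)) =
      (List.ofFn (fun i : Fin m => l i.succ)).map (fun a => (a, false)) := by
    rw [List.map_ofFn]
    congr 1
  have h2 : step z (l 0, true) = pt (z 0 - s [l 0] * z 2) (z 2 * (1 / 10) ^ ([l 0].length + 1))
      (s [l 0]) ((1 / 10) ^ ([l 0].length + 1)) 1 := by
    simp only [step, if_true]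
    rw [Rm_apply, Am_pt]
    simp only [s, List.length_singleton, add_zero]
    congr 1 <;> ring
  rw [h0, h1, h2, foldl_false]
  have h3 : [l 0] ++ List.ofFn (fun i : Fin m => l i.succ) = List.ofFn l := by
    rw [List.ofFn_succ]
    rfl
  rw [h3, List.length_ofFn]

lemma cube_zero {m : ℕ} (l : Fin (m + 1) → Fin 4) :
    (prodAB (fun i => Am (l i)) (fun i => if bOne (m + 1) i then Rm else 1)) ^ 3 = 0 := by
  set P := prodAB (fun i => Am (l i)) (fun i => if bOne (m + 1) i then Rm else 1) with hP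
  have key : ∀ z, P.mulVec (P.mulVec (P.mulVec z)) = 0 := by
    intro z
    have hb := block l
    rw [← hP] at hb
    rw [hb (P.mulVec (P.mulVec z)), hb (P.mulVec z), hb z]
    funext i
    fin_cases i <;> simp [pt] <;> ring_nf <;> simp
  have hpow : P ^ 3 = P * (P * P) := by
    rw [pow_succ, pow_two, mul_assoc]
  rw [hpow]
  apply Matrix.ext_of_mulVec_single
  intro i
  rw [← Matrix.mulVec_mulVec, ← Matrix.mulVec_mulVec, key, Matrix.zero_mulVec]

lemma rho_zero {P : Matrix (Fin 6) (Fin 6) ℝ} (h : P ^ 3 = 0) : rho P = 0 := by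
  unfold rho
  have h1 : (P.map (algebraMap ℝ ℂ)) ^ 3 = 0 := by
    have h2 : P.map (algebraMap ℝ ℂ) = (algebraMap ℝ ℂ).mapMatrix P := rfl
    rw [h2, ← map_pow, h, map_zero]
  have h3 := spectrum.spectralRadius_pow_le (𝕜 := ℂ) (P.map (algebraMap ℝ ℂ)) 3 (by norm_num)
  rw [h1, spectrum.spectralRadius_zero] at h3
  have h4 := le_antisymm h3 bot_le
  exact (pow_eq_zero_iff (by norm_num)).mp h4

/-- the response with a single restart at the beginning, as elements of `ℬ` -/
noncomputable def Bone (n : ℕ) : Fin n → setB := fun i =>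
  ⟨if bOne n i then Rm else 1, by
    rw [mem_setB]
    split_ifs
    · exact Or.inr rfl
    · exact Or.inl rfl⟩

lemma rho_Bone {n : ℕ} (hn : 1 ≤ n) (A : Fin n → setA) :
    rho (prodAB (fun i => (A i).1) (fun i => (Bone n i).1)) = 0 := by
  obtain ⟨m, rfl⟩ : ∃ m, n = m + 1 := ⟨n - 1, by omega⟩
  have hA : ∀ i, ∃ a, Am a = (A i).1 := fun i => mem_setA.mp (A i).2
  choose l hl using hA
  apply rho_zero
  have := cube_zero l
  simp only [hl] at this
  exact this

lemma maxMin_rho {n : ℕ} (hn : 1 ≤ n) : maxMin rho setA setB n = 0 := by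
  unfold maxMin
  rw [← bot_eq_zero, iSup_eq_bot]
  intro A
  rw [bot_eq_zero]
  refine le_antisymm ?_ bot_le
  exact (iInf_le _ (Bone n)).trans (rho_Bone hn A).le

lemma minMax_rho {n : ℕ} (hn : 1 ≤ n) : minMax rho setA setB n = 0 := by
  unfold minMax
  refine le_antisymm ?_ bot_le
  refine (iInf_le _ (Bone n)).trans ?_
  apply iSup_le
  intro A
  exact (rho_Bone hn A).le

lemma rpow_zero_eventually {u : ℕ → ℝ≥0∞} (hu : ∀ n, 1 ≤ n → u n = 0) :
    (fun n : ℕ => (u n) ^ (1 / (n : ℝ))) =ᶠ[atTop] fun _ => 0 := by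
  filter_upwards [eventually_ge_atTop 1] with n hn
  rw [hu n hn, ENNReal.zero_rpow_of_pos]
  positivity

/-- a type synonym carrying no topology -/
def Mat (N : ℕ) : Type := Matrix (Fin N) (Fin N) ℝ

instance (N : ℕ) : AddCommGroup (Mat N) := inferInstanceAs (AddCommGroup (Matrix (Fin N) (Fin N) ℝ))

instance (N : ℕ) : Module ℝ (Mat N) := inferInstanceAs (Module ℝ (Matrix (Fin N) (Fin N) ℝ))

instance (N : ℕ) : FiniteDimensional ℝ (Mat N) :=
  inferInstanceAs (FiniteDimensional ℝ (Matrix (Fin N) (Fin N) ℝ))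

/-- entries are bounded by the norm -/
lemma entry_le {N : ℕ} {nrm : Matrix (Fin N) (Fin N) ℝ → ℝ} (h : IsMatrixNorm nrm) (i j : Fin N) :
    ∃ C : ℝ, 1 ≤ C ∧ ∀ X : Matrix (Fin N) (Fin N) ℝ, |X i j| ≤ C * nrm X := by
  let _ : Norm (Mat N) := ⟨fun X => nrm X⟩
  have core : NormedSpace.Core ℝ (Mat N) :=
    { norm_nonneg := fun X => h.nonneg X
      norm_smul := fun c X => by
        rw [Real.norm_eq_abs]
        exact h.smul c X
      norm_triangle := fun X Y => h.add_le X Y
      norm_eq_zero_iff := fun X => h.eq_zero_iff X }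
  let _ : NormedAddCommGroup (Mat N) := NormedAddCommGroup.ofCore core
  let _ : NormedSpace ℝ (Mat N) := NormedSpace.ofCore core
  let f : Mat N →ₗ[ℝ] ℝ :=
    { toFun := fun X => (X : Matrix (Fin N) (Fin N) ℝ) i j
      map_add' := fun X Y => rfl
      map_smul' := fun c X => rfl }
  let F : Mat N →L[ℝ] ℝ := LinearMap.toContinuousLinearMap f
  refine ⟨max 1 ‖F‖, le_max_left _ _, fun X => ?_⟩
  let Y : Mat N := X
  have h1 : ‖F Y‖ ≤ ‖F‖ * ‖Y‖ := F.le_opNorm Y
  have h2 : F Y = X i j := rfl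
  have h3 : ‖Y‖ = nrm X := rfl
  rw [h2, h3, Real.norm_eq_abs] at h1
  refine h1.trans ?_
  have := h.nonneg X
  gcongr
  exact le_max_right _ _

lemma norm_bound {nrm : Matrix (Fin 6) (Fin 6) ℝ → ℝ} (h : IsMatrixNorm nrm) :
    ∃ κ : ℝ, 0 < κ ∧ ∀ n : ℕ, 1 ≤ n → ∃ A : Fin n → setA, ∀ B : Fin n → setB,
      κ ^ n ≤ nrm (prodAB (fun i => (A i).1) (fun i => (B i).1)) := by
  have hC : ∃ C : ℝ, 1 ≤ C ∧ ∀ (X : Matrix (Fin 6) (Fin 6) ℝ) (j : Fin 6), |X 5 j| ≤ C * nrm X := by
    have h1 : ∀ j : Fin 6, ∃ C : ℝ, 1 ≤ C ∧ ∀ X : Matrix (Fin 6) (Fin 6) ℝ, |X 5 j| ≤ C * nrm X :=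
      fun j => entry_le h 5 j
    choose C hC1 hC2 using h1
    refine ⟨∑ j, C j, ?_, ?_⟩
    · calc (1 : ℝ) ≤ C 0 := hC1 0
        _ ≤ ∑ j, C j := Finset.single_le_sum (fun j _ => zero_le_one.trans (hC1 j))
            (Finset.mem_univ 0)
    · intro X j
      refine (hC2 j X).trans ?_
      have := h.nonneg X
      gcongr
      exact Finset.single_le_sum (fun j _ => zero_le_one.trans (hC1 j)) (Finset.mem_univ j)
  obtain ⟨C, hC1, hC2⟩ := hC
  have hC0 : 0 < C := by linarith
  refine ⟨1 / 1000 * (1 / (6000 * C)), by positivity, ?_⟩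
  intro n hn
  obtain ⟨w, hw, hsq⟩ := exists_sqFree n
  refine ⟨fun i => ⟨Am (w.get (i.cast hw.symm)), mem_setA.mpr ⟨_, rfl⟩⟩, fun B => ?_⟩
  obtain ⟨j, hj⟩ := entry_bound w hw hsq B
  have h2 := hC2 (prodAB (fun i => Am (w.get (i.cast hw.symm))) (fun i => (B i).1)) j
  have h3 : (1 / 1000 : ℝ) ^ (n + 1) / 6 ≤
      C * nrm (prodAB (fun i => Am (w.get (i.cast hw.symm))) (fun i => (B i).1)) := hj.trans h2
  have h4 : (1 / 1000 : ℝ) ^ (n + 1) / 6 / C ≤
      nrm (prodAB (fun i => Am (w.get (i.cast hw.symm))) (fun i => (B i).1)) := by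
    rw [div_le_iff₀ hC0]
    linarith
  refine le_trans ?_ h4
  have h5 : (1 / (6000 * C)) ^ n ≤ 1 / (6000 * C) := by
    have h6 : 1 / (6000 * C) ≤ 1 := by
      rw [div_le_one (by positivity)]
      linarith
    calc (1 / (6000 * C)) ^ n ≤ (1 / (6000 * C)) ^ 1 :=
          pow_le_pow_of_le_one (by positivity) h6 hn
      _ = 1 / (6000 * C) := pow_one _
  rw [mul_pow]
  calc (1 / 1000 : ℝ) ^ n * (1 / (6000 * C)) ^ n ≤ (1 / 1000 : ℝ) ^ n * (1 / (6000 * C)) := by
        gcongr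
    _ = (1 / 1000 : ℝ) ^ (n + 1) / 6 / C := by
        rw [pow_succ]
        field_simp
        ring

lemma rpow_bound {κ : ℝ} (hκ : 0 < κ) {u : ℕ → ℝ≥0∞}
    (hu : ∀ n, 1 ≤ n → ENNReal.ofReal (κ ^ n) ≤ u n) :
    ENNReal.ofReal κ ≤ liminf (fun n : ℕ => (u n) ^ (1 / (n : ℝ))) atTop := by
  apply le_liminf_of_le
  · isBoundedDefault
  · filter_upwards [eventually_ge_atTop 1] with n hn
    have h1 : (ENNReal.ofReal (κ ^ n)) ^ (1 / (n : ℝ)) = ENNReal.ofReal κ := by
      rw [ENNReal.ofReal_rpow_of_nonneg (by positivity) (by positivity), one_div,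
        Real.pow_rpow_inv_natCast hκ.le (by omega)]
    rw [← h1]
    exact ENNReal.rpow_le_rpow (hu n hn) (by positivity)

theorem main : 1 ≤ 6 ∧ setA.Nonempty ∧ setB.Nonempty ∧
    ∀ nrm : Matrix (Fin 6) (Fin 6) ℝ → ℝ, IsMatrixNorm nrm →
      muHat setA setB < mu nrm setA setB ∧ etaHat setA setB < eta nrm setA setB ∧
      muCheck setA setB < mu nrm setA setB ∧ etaCheck setA setB < eta nrm setA setB := by
  refine ⟨by norm_num, setA_nonempty, setB_nonempty, fun nrm h => ?_⟩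
  obtain ⟨κ, hκ, hbd⟩ := norm_bound h
  have hκ' : 0 < ENNReal.ofReal κ := ENNReal.ofReal_pos.mpr hκ
  have hmu : ENNReal.ofReal κ ≤ mu nrm setA setB := by
    apply rpow_bound hκ
    intro n hn
    obtain ⟨A, hA⟩ := hbd n hn
    unfold maxMin
    refine le_trans ?_ (le_iSup _ A)
    apply le_iInf
    intro B
    exact ENNReal.ofReal_le_ofReal (hA B)
  have heta : ENNReal.ofReal κ ≤ eta nrm setA setB := by
    apply rpow_bound hκ
    intro n hn
    obtain ⟨A, hA⟩ := hbd n hn
    unfold minMax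
    apply le_iInf
    intro B
    refine le_trans ?_ (le_iSup _ A)
    exact ENNReal.ofReal_le_ofReal (hA B)
  have h1 : muHat setA setB = 0 := by
    unfold muHat
    rw [limsup_congr (rpow_zero_eventually (fun n hn => maxMin_rho hn))]
    exact limsup_const 0
  have h2 : etaHat setA setB = 0 := by
    unfold etaHat
    rw [limsup_congr (rpow_zero_eventually (fun n hn => minMax_rho hn))]
    exact limsup_const 0
  have h3 : muCheck setA setB = 0 := by
    unfold muCheck
    rw [liminf_congr (rpow_zero_eventually (fun n hn => maxMin_rho hn))]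
    exact liminf_const 0
  have h4 : etaCheck setA setB = 0 := by
    unfold etaCheck
    rw [liminf_congr (rpow_zero_eventually (fun n hn => minMax_rho hn))]
    exact liminf_const 0
  rw [h1, h2, h3, h4]
  exact ⟨hκ'.trans_le hmu, hκ'.trans_le heta, hκ'.trans_le hmu, hκ'.trans_le heta⟩

end Pool.Agent.Lib.MP_36f7ac_an
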